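import Pool.Agent.PTree.Defs

/-!
# The principles `P⁻` and `P` in an `ω`-structure
-/

set_option autoImplicit false

namespace Pool.Agent.NSI

open Pool.Agent.PTree

/-- The set of numbers coding the set `T` of strings. -/
def codeT (T : StrSet) : Set ℕ := {m | ∃ σ : List Bool, T σ = true ∧ Encodable.encode σ = m}

/-- The set of numbers coding the sequence `X`. -/
def codeX (X : ℕ → ℕ → Bool) : Set ℕ := {m | ∃ i j : ℕ, X i j = true ∧ Nat.pair i j = m}

/-- `P⁻` in the `ω`-structure with the second-order part `S`: every positive tree in `S` has in `S`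
a sequence of pairwise distinct paths. -/
def PMinus (S : Set (Set ℕ)) : Prop :=
  ∀ T : StrSet, codeT T ∈ S → Positive T → ∃ X : ℕ → ℕ → Bool, codeX X ∈ S ∧ ManyPaths T X

/-- `P` in the `ω`-structure with the second-order part `S`: every positive tree in `S` has in `S` a
perfect subtree. -/
def PPerf (S : Set (Set ℕ)) : Prop :=
  ∀ T : StrSet, codeT T ∈ S → Positive T →
    ∃ U : StrSet, codeT U ∈ S ∧ Perfect U ∧ ∀ σ, U σ = true → T σ = true

end Pool.Agent.NSI
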