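import Pool.Agent.NSI.Rca
import Pool.Agent.NSI.Princ
import Pool.Agent.OSM.Turing

/-!
# An `ω`-model of `RCA₀ + P⁻` in which `P` fails, from the continuous theorem

`Bold` is the continuous form of the theorem.
-/

set_option autoImplicit false

namespace Pool.Agent.NSI

open Pool.Agent.PTree Pool.Agent.OSM
open scoped Classical

/-- The continuous form of the theorem. -/
def Bold : Prop :=
  ∀ (D : (l : ℕ) → ℕ → Set (StrSet × (Fin l → ℕ → ℕ → Bool)))
    (Ψ : (l : ℕ) → ℕ → StrSet × (Fin l → ℕ → ℕ → Bool) → StrSet),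
    (∀ l e, ContinuousOn (Ψ l e) (D l e)) → (∀ l e, ∀ p ∈ D l e, Positive (Ψ l e p)) →
    ∀ (E : (l : ℕ) → ℕ → Set (StrSet × (Fin l → ℕ → ℕ → Bool)))
      (Φ : (l : ℕ) → ℕ → StrSet × (Fin l → ℕ → ℕ → Bool) → StrSet),
      (∀ l e, ContinuousOn (Φ l e) (E l e)) →
      ∃ (T : StrSet) (G : ℕ → ℕ → ℕ → Bool), Positive T ∧
        (∀ l e, (T, fun c : Fin l => G c) ∈ D l e →
          ∃ l', ManyPaths (Ψ l e (T, fun c : Fin l => G c)) (G l')) ∧
        ∀ l e, (T, fun c : Fin l => G c) ∈ E l e →
          ¬ (Perfect (Φ l e (T, fun c : Fin l => G c)) ∧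
            ∀ τ, Φ l e (T, fun c : Fin l => G c) τ = true → T τ = true)

theorem encode_of_decode_bool (m : ℕ) (b : Bool)
    (h : Encodable.decode (α := Bool) m = some b) : Encodable.encode b = m := by
  rcases Nat.lt_or_ge m 2 with hm | hm
  · have h2 : m = 0 ∨ m = 1 := by omega
    rcases h2 with rfl | rfl
    · rw [Encodable.decode_zero] at h
      cases h
      rfl
    · rw [Encodable.decode_one] at h
      cases h
      rfl
  · rw [Encodable.decode_ge_two m hm] at h
    exact absurd h (by simp)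

theorem encode_of_decode (m : ℕ) : ∀ σ : List Bool,
    Encodable.decode (α := List Bool) m = some σ → Encodable.encode σ = m := by
  induction m using Nat.strong_induction_on with
  | _ m ih =>
    intro σ h
    cases m with
    | zero =>
      rw [Encodable.decode_list_zero] at h
      cases h
      rfl
    | succ v =>
      rw [Encodable.decode_list_succ] at h
      cases h1 : Encodable.decode (α := Bool) (Nat.unpair v).1 with
      | none => rw [h1] at h; simp [Seq.seq] at h
      | some b =>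
        cases h2 : Encodable.decode (α := List Bool) (Nat.unpair v).2 with
        | none => rw [h1, h2] at h; simp [Seq.seq] at h
        | some τ =>
          rw [h1, h2] at h
          simp [Seq.seq] at h
          subst h
          rw [Encodable.encode_list_cons, encode_of_decode_bool _ _ h1,
            ih _ (Nat.lt_succ_of_le (Nat.unpair_right_le v)) _ h2, Nat.pair_unpair]

theorem mem_codeT (T : StrSet) (m : ℕ) : m ∈ codeT T ↔ tx T m = true := by
  constructor
  · rintro ⟨σ, h1, rfl⟩
    simp [tx, h1]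
  · intro h
    simp only [tx] at h
    cases h1 : Encodable.decode (α := List Bool) m with
    | none => rw [h1] at h; simp at h
    | some σ =>
      rw [h1] at h
      simp only [Option.elim_some] at h
      refine ⟨σ, h, ?_⟩
      exact encode_of_decode m σ h1

theorem mem_codeX (X : ℕ → ℕ → Bool) (m : ℕ) : m ∈ codeX X ↔ gx X m = true := by
  constructor
  · rintro ⟨i, j, h1, rfl⟩
    simp [gx, h1]
  · intro h
    exact ⟨_, _, h, Nat.pair_unpair m⟩

theorem chi_codeT (T : StrSet) : chi (codeT T) = TuringBaire.ch (tx T) := by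
  funext m
  simp only [chi, TuringBaire.ch]
  rw [if_congr (mem_codeT T m) rfl rfl]

theorem chi_codeX (X : ℕ → ℕ → Bool) : chi (codeX X) = chG X := by
  rw [chG_eq]
  funext m
  simp only [chi, TuringBaire.ch]
  rw [if_congr (mem_codeX X m) rfl rfl]

theorem join_mono (T : StrSet) (G : ℕ → ℕ → ℕ → Bool) {l l' : ℕ} (h : l ≤ l') :
    Nat.RecursiveIn {TuringBaire.ch (join (T, fun c : Fin l' => G c))}
      (TuringBaire.ch (join (T, fun c : Fin l => G c))) := by
  set o := TuringBaire.ch (join (T, fun c : Fin l' => G c)) with ho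
  have h1 : RecF o fun m => if join (T, fun c : Fin l' => G c) m = true then 1 else 0 :=
    Nat.RecursiveIn.oracle _ rfl
  have h2 : Primrec₂ fun a m : ℕ => if (Nat.unpair m).1 ≤ l then a else 0 := by
    refine Primrec.ite ?_ Primrec.fst (Primrec.const 0)
    exact Primrec.nat_le.comp (Primrec.fst.comp (Primrec.unpair.comp Primrec.snd))
      (Primrec.const l)
  have h3 := RecF.comp₂ h2 h1 RecF.id
  refine (h3.of_eq (g := fun m => if join (T, fun c : Fin l => G c) m = true then 1 else 0)
    fun m => ?_)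
  simp only [join]
  by_cases hm : (Nat.unpair m).1 = 0
  · simp [hm]
  · by_cases hm1 : (Nat.unpair m).1 - 1 < l
    · have hm2 : (Nat.unpair m).1 - 1 < l' := hm1.trans_le h
      have hm3 : (Nat.unpair m).1 ≤ l := by omega
      simp [hm, hm1, hm2, hm3]
    · have hm3 : ¬ (Nat.unpair m).1 ≤ l := by omega
      simp [hm, hm1, hm3]

/-- The continuous form gives an `ω`-model of `RCA₀ + P⁻` in which `P` fails. -/
theorem ideal_of_bold (hb : Bold) :
    ∃ S : Set (Set ℕ), RCA0 (omega S) ∧ PMinus S ∧ ¬ PPerf S := by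
  obtain ⟨g, hg⟩ := exists_surjective_nat TuringBaire.OC
  obtain ⟨T, G, hT, hP, hN⟩ := hb
    (fun l e => {p | ∃ T', Positive T' ∧
      TuringBaire.ev (TuringBaire.ch (join p)) (g e) = TuringBaire.ch (tx T')})
    (fun l e p => xt (TuringBaire.Fn (g e) (join p)))
    (fun l e => xt_continuous.comp_continuousOn
      ((continuousOn_Fn' (g e)).comp join_continuous.continuousOn fun p hp => by
        obtain ⟨T', -, hT'⟩ := hp
        exact ⟨_, hT'⟩))
    (fun l e p hp => by
      obtain ⟨T', h1, h2⟩ := hp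
      rw [TuringBaire.Fn_eq h2, xt_tx]
      exact h1)
    (fun l e => {p | join p ∈ Tot (g e)})
    (fun l e p => xt (TuringBaire.Fn (g e) (join p)))
    (fun l e => xt_continuous.comp_continuousOn
      ((continuousOn_Fn' (g e)).comp join_continuous.continuousOn fun p hp => hp))
  set oj : ℕ → ℕ →. ℕ := fun l => TuringBaire.ch (join (T, fun c : Fin l => G c)) with hoj
  refine ⟨{Z : Set ℕ | ∃ l, Nat.RecursiveIn {oj l} (chi Z)},
    rca_of_chain oj fun l l' h => join_mono T G h, ?_, ?_⟩
  · rintro T' ⟨l, hl⟩ hpos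
    rw [chi_codeT] at hl
    obtain ⟨a, ha⟩ := TuringBaire.exists_code hl
    obtain ⟨e, rfl⟩ := hg a
    obtain ⟨l', hl'⟩ := hP l e ⟨T', hpos, ha⟩
    refine ⟨G l', ⟨l' + 1, ?_⟩, ?_⟩
    · rw [chi_codeX]
      exact comp_join_succ (T, fun c : Fin (l' + 1) => G c) ⟨l', Nat.lt_succ_self l'⟩
    · rwa [TuringBaire.Fn_eq ha, xt_tx] at hl'
  · intro h
    obtain ⟨U, ⟨l, hl⟩, hU1, hU2⟩ := h T ⟨0, by
      rw [chi_codeT, ← chT_eq]
      exact comp_join_zero (T, fun c : Fin 0 => G c)⟩ hT
    rw [chi_codeT] at hl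
    obtain ⟨a, ha⟩ := TuringBaire.exists_code hl
    obtain ⟨e, rfl⟩ := hg a
    refine hN l e ⟨_, ha⟩ ?_
    rw [TuringBaire.Fn_eq ha, xt_tx]
    exact ⟨hU1, hU2⟩

end Pool.Agent.NSI
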