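import Mathlib

/-!
# Second-order arithmetic: structures and the axioms of `RCA₀`

`L2` is the type of structures `(N, S, 0, 1, +, ·, <)` for the language of second-order arithmetic:
`N` is the range of the number variables and `S`, a set of subsets of `N`, the range of the set
variables. `Tm` are the number terms and `Bd` the `Δ⁰₀` formulas (all quantifiers are bounded number
quantifiers), in which the other connectives and the bounded existential quantifier are expressed by
negation, conjunction and the bounded universal quantifier. Number variables and set variables are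
numbered by `0, 1, 2, ...`; a quantifier binds the number variable `0` and the others are shifted by
one. `RCA0 A` says that `A` satisfies the axioms of `RCA₀`: the basic axioms, `Σ⁰₁` induction and
`Δ⁰₁` comprehension, with number and set parameters.
-/

set_option autoImplicit false

namespace Pool.Agent.NSI

/-- Number terms. -/
inductive Tm : Type
  | var (i : ℕ) : Tm
  | zero : Tm
  | one : Tm
  | add (s t : Tm) : Tm
  | mul (s t : Tm) : Tm

/-- `Δ⁰₀` formulas; in `all t φ` (for all `x < t`) the bound variable has number `0` in `φ`, and the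
variable `i + 1` of `φ` is the variable `i` of `all t φ`. -/
inductive Bd : Type
  | eq (s t : Tm) : Bd
  | lt (s t : Tm) : Bd
  | mem (t : Tm) (i : ℕ) : Bd
  | neg (φ : Bd) : Bd
  | and (φ ψ : Bd) : Bd
  | all (t : Tm) (φ : Bd) : Bd

/-- Structures for the language of second-order arithmetic. -/
structure L2 where
  N : Type
  zero : N
  one : N
  add : N → N → N
  mul : N → N → N
  lt : N → N → Prop
  S : Set (Set N)

/-- The assignment `x, v 0, v 1, ...`. -/
def push {N : Type} (x : N) (v : ℕ → N) : ℕ → N := fun i => if i = 0 then x else v (i - 1)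

/-- The value of a term for the assignment `v` of the number variables. -/
noncomputable def Tm.val (A : L2) (v : ℕ → A.N) (t : Tm) : A.N :=
  Tm.rec (motive := fun _ => A.N) v A.zero A.one (fun _ _ a b => A.add a b)
    (fun _ _ a b => A.mul a b) t

/-- `φ` is true in `A` for the assignments `X` of the set variables and `v` of the number
variables. -/
def Bd.Sat (A : L2) (X : ℕ → Set A.N) (φ : Bd) (v : ℕ → A.N) : Prop :=
  Bd.rec (motive := fun _ => (ℕ → A.N) → Prop)
    (fun s t v => s.val A v = t.val A v)
    (fun s t v => A.lt (s.val A v) (t.val A v))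
    (fun t i v => t.val A v ∈ X i)
    (fun _ P v => ¬ P v)
    (fun _ _ P Q v => P v ∧ Q v)
    (fun t _ P v => ∀ x : A.N, A.lt x (t.val A v) → P (push x v)) φ v

/-- The `Σ⁰₁` formula `∃ x, φ`, `x` the variable `0` of `φ`, as a property of the value `m` of its
first variable; its other variables have the values `v`. -/
def SigmaOne (A : L2) (X : ℕ → Set A.N) (φ : Bd) (v : ℕ → A.N) (m : A.N) : Prop :=
  ∃ x : A.N, φ.Sat A X (push x (push m v))

/-- The `Π⁰₁` formula `∀ x, φ` as a property of `m`. -/
def PiOne (A : L2) (X : ℕ → Set A.N) (φ : Bd) (v : ℕ → A.N) (m : A.N) : Prop :=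
  ∀ x : A.N, φ.Sat A X (push x (push m v))

/-- The structure `A` is a model of `RCA₀`. -/
structure RCA0 (A : L2) : Prop where
  /-- there is a set (structures have a nonempty second-order part) -/
  nonempty : A.S.Nonempty
  succ_ne_zero : ∀ m, A.add m A.one ≠ A.zero
  succ_inj : ∀ m n, A.add m A.one = A.add n A.one → m = n
  add_zero : ∀ m, A.add m A.zero = m
  add_succ : ∀ m n, A.add m (A.add n A.one) = A.add (A.add m n) A.one
  mul_zero : ∀ m, A.mul m A.zero = A.zero
  mul_succ : ∀ m n, A.mul m (A.add n A.one) = A.add (A.mul m n) m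
  not_lt_zero : ∀ m, ¬ A.lt m A.zero
  lt_succ : ∀ m n, A.lt m (A.add n A.one) ↔ A.lt m n ∨ m = n
  /-- `Σ⁰₁` induction -/
  ind : ∀ (φ : Bd) (X : ℕ → Set A.N), (∀ i, X i ∈ A.S) → ∀ v : ℕ → A.N,
    SigmaOne A X φ v A.zero →
      (∀ m, SigmaOne A X φ v m → SigmaOne A X φ v (A.add m A.one)) → ∀ m, SigmaOne A X φ v m
  /-- `Δ⁰₁` comprehension -/
  comp : ∀ (φ ψ : Bd) (X : ℕ → Set A.N), (∀ i, X i ∈ A.S) → ∀ v : ℕ → A.N,
    (∀ m, SigmaOne A X φ v m ↔ PiOne A X ψ v m) → ∃ Z ∈ A.S, ∀ m, m ∈ Z ↔ SigmaOne A X φ v m

/-- The `ω`-structure with the second-order part `S`. -/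
def omega (S : Set (Set ℕ)) : L2 where
  N := ℕ
  zero := 0
  one := 1
  add := (· + ·)
  mul := (· * ·)
  lt := (· < ·)
  S := S

end Pool.Agent.NSI
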