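import Pool.Agent.NST.Conj
import Pool.Agent.NST.Extr

/-!
# NSI/MBasic: changing levels, conditions
-/

set_option autoImplicit false

namespace Pool.Agent.NSI

open Finset Pool.Agent.PTree Pool.Agent.OSM Pool.Agent.NST
open scoped Classical

theorem met_congr {l : ℕ} {π π' : ℕ → Par} (h : ∀ c < l, π c = π' c) (F : MF l) :
    Met l π F = Met l π' F := by
  induction l with
  | zero => rfl
  | succ l ih =>
    rw [Met, Met, h l (Nat.lt_succ_self l)]
    exact ih (fun c hc => h c (hc.trans (Nat.lt_succ_self l))) _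

theorem exists_avoid {l : ℕ} {F : MF l} {π : ℕ → Par} {T : StrSet} {n : ℕ}
    (h : ∀ G, ¬ (Met l π F).bad n T G) : ∃ G, ¬ F.bad n T G := by
  obtain ⟨G', -, h2⟩ := extr (X := allF (∅ : Finset ℕ) fun _ => F) (Y := F) (π := π)
    (G := fun _ _ _ => false)
    (Met_of_all (fun G i hi => absurd hi (Finset.notMem_empty i)) π _) (h _)
  exact ⟨G', h2⟩

theorem unb_bb {l : ℕ} {F : MF (l + 1)} {N : Set StrSet} (h : Unb (l + 1) F N) (κ : Par) :
    Unb l (BB F κ.k κ.q κ.s) N := by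
  rintro T1 m1 c1 hT hc hN ⟨π, hπ⟩
  refine h T1 m1 c1 hT hc hN ⟨Function.update π l κ, fun T hT' n G hb => ?_⟩
  rw [Met, Function.update_self] at hb
  rw [met_congr (π' := π) (fun c hc => Function.update_of_ne hc.ne _ _)] at hb
  exact hπ T hT' n G hb

/-- The trivial parameters. -/
def par1 : Par := ⟨0, 1, 1, one_pos, le_rfl, one_pos, le_rfl⟩

theorem bb_lift_le {l : ℕ} (F : MF l) :
    (BB (F.lift (Nat.le_succ l)) par1.k par1.q par1.s).Le F := by
  intro n T G hb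
  by_contra hF
  have h1 : gs ((F.lift (Nat.le_succ l)).slice G) n T 0 1 = univ := by
    rw [Finset.eq_univ_iff_forall]
    intro x
    rw [mem_gs]
    refine ⟨univ, by rw [OSM.dens_univ], fun H _ _ hbad => hF ?_⟩
    exact F.loc (Agree.refl n T) (fun c hc i _ j _ => by
      rw [Function.update_of_ne hc.ne]) hbad
  have h2 : b ((F.lift (Nat.le_succ l)).slice G) n T 0 1 = 1 := by
    rw [b, h1, OSM.dens_univ]
  have h3 : b ((F.lift (Nat.le_succ l)).slice G) n T 0 1 < 1 := hb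
  rw [h2] at h3
  exact lt_irrefl _ h3

theorem viable_raise {l : ℕ} {F : MF l} {N : Set StrSet} (h : Viable l F N) :
    Viable (l + 1) (F.lift (Nat.le_succ l)) N := by
  obtain ⟨π, hπ⟩ := h
  refine ⟨Function.update π l par1, fun T hT n G hb => hπ T hT n G ?_⟩
  rw [Met, Function.update_self] at hb
  rw [met_congr (π' := π) (fun c hc => Function.update_of_ne hc.ne _ _)] at hb
  exact Met_mono (bb_lift_le F) π _ _ _ hb

/-- Conditions. -/
structure Cond where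
  l : ℕ
  F : MF l
  T : StrSet
  m : ℕ
  c : ℝ
  tree : IsTree T
  lt : c < M T
  via : Viable l F (Nb T m c)

/-- Extension of conditions. -/
structure Cond.Ext (p p' : Cond) : Prop where
  l_le : p.l ≤ p'.l
  F_le : ∀ n T G, p.F.bad n T G → p'.F.bad n T G
  mem : p'.T ∈ Nb p.T p.m p.c
  m_le : p.m ≤ p'.m
  c_le : p.c ≤ p'.c

theorem Cond.Ext.refl (p : Cond) : p.Ext p :=
  ⟨le_rfl, fun _ _ _ h => h, Nb.self p.tree _ p.lt, le_rfl, le_rfl⟩

theorem Cond.Ext.nb {p p' : Cond} (h : p.Ext p') : Nb p'.T p'.m p'.c ⊆ Nb p.T p.m p.c :=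
  Nb.subset h.mem h.m_le h.c_le

theorem Cond.Ext.trans {p p' p'' : Cond} (h : p.Ext p') (h' : p'.Ext p'') : p.Ext p'' :=
  ⟨h.l_le.trans h'.l_le, fun n T G hb => h'.F_le n T G (h.F_le n T G hb), h.nb h'.mem,
    h.m_le.trans h'.m_le, h.c_le.trans h'.c_le⟩

/-- `p` forces `Q`. -/
def Forces (p : Cond) (Q : StrSet → Pt → Prop) : Prop :=
  ∀ T ∈ Nb p.T p.m p.c, ∀ G : Pt, (∀ n, ¬ p.F.bad n T G) → Q T G

theorem Forces.ext {p p' : Cond} {Q : StrSet → Pt → Prop} (h : Forces p Q) (hp : p.Ext p') :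
    Forces p' Q :=
  fun T hT G hG => h T (hp.nb hT) G fun n hn => hG n (hp.F_le n T G hn)

/-- `Q` can be forced below every condition. -/
def Dense (Q : StrSet → Pt → Prop) : Prop := ∀ p : Cond, ∃ p' : Cond, p.Ext p' ∧ Forces p' Q

theorem raise_one (p : Cond) : ∃ p' : Cond, p.Ext p' ∧ p'.l = p.l + 1 :=
  ⟨⟨p.l + 1, p.F.lift (Nat.le_succ _), p.T, p.m, p.c, p.tree, p.lt, viable_raise p.via⟩,
    ⟨Nat.le_succ _, fun _ _ _ h => h, Nb.self p.tree _ p.lt, le_rfl, le_rfl⟩, rfl⟩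

theorem raise (p : Cond) (l : ℕ) : ∃ p' : Cond, p.Ext p' ∧ l ≤ p'.l := by
  induction l with
  | zero => exact ⟨p, Cond.Ext.refl p, Nat.zero_le _⟩
  | succ l ih =>
    obtain ⟨p', h1, h2⟩ := ih
    obtain ⟨p'', h3, h4⟩ := raise_one p'
    exact ⟨p'', h1.trans h3, by omega⟩

theorem dense_of_le {Q : StrSet → Pt → Prop} (l : ℕ)
    (h : ∀ p : Cond, l ≤ p.l → ∃ p' : Cond, p.Ext p' ∧ Forces p' Q) : Dense Q := by
  intro p
  obtain ⟨p', h1, h2⟩ := raise p l
  obtain ⟨p'', h3, h4⟩ := h p' h2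
  exact ⟨p'', h1.trans h3, h4⟩

theorem exists_shrink (p : Cond) : ∃ p' : Cond, p.Ext p' ∧ p.m < p'.m ∧ p.c < p'.c := by
  have h1 := p.lt
  refine ⟨⟨p.l, p.F, p.T, p.m + 1, (p.c + M p.T) / 2, p.tree, by linarith,
    p.via.mono (MF.Le.refl _) (Nb.subset (Nb.self p.tree _ p.lt) (Nat.le_succ _)
      (by linarith))⟩, ⟨le_rfl, fun _ _ _ h => h, Nb.self p.tree _ p.lt, Nat.le_succ _, ?_⟩,
    Nat.lt_succ_self _, ?_⟩
  · show p.c ≤ (p.c + M p.T) / 2
    linarith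
  · show p.c < (p.c + M p.T) / 2
    linarith

theorem dense_step {Q : StrSet → Pt → Prop} (h : Dense Q) (p : Cond) :
    ∃ p' : Cond, p.Ext p' ∧ p.m < p'.m ∧ p.c < p'.c ∧ Forces p' Q := by
  obtain ⟨p', h1, h2⟩ := h p
  obtain ⟨p'', h3, h4, h5⟩ := exists_shrink p'
  exact ⟨p'', h1.trans h3, lt_of_le_of_lt h1.m_le h4, lt_of_le_of_lt h1.c_le h5, h2.ext h3⟩

end Pool.Agent.NSI
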