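import Pool.Agent.NSI.MBasic

/-!
# NSI/MFus: generic points for countably many dense tasks
-/

set_option autoImplicit false

namespace Pool.Agent.NSI

open Finset Pool.Agent.PTree Pool.Agent.OSM Pool.Agent.NST
open scoped Classical

theorem isOpen_ag (l n : ℕ) (G : Pt) : IsOpen {G' : Pt | Ag l n G G'} := by
  have h1 : {G' : Pt | Ag l n G G'} = ⋂ c ∈ Finset.range l, ⋂ i ∈ Finset.range n,
      ⋂ j ∈ Finset.range n, {G' : Pt | G' c i j = G c i j} := by
    ext G'
    simp [Ag]
  rw [h1]
  refine isOpen_biInter_finset fun c _ => isOpen_biInter_finset fun i _ =>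
    isOpen_biInter_finset fun j _ => ?_
  have h : Continuous fun G' : Pt => G' c i j :=
    (continuous_apply j).comp ((continuous_apply i).comp (continuous_apply c))
  exact (isOpen_discrete ({G c i j} : Set Bool)).preimage h

theorem isClosed_avoid {l : ℕ} (F : MF l) (n : ℕ) (T : StrSet) :
    IsClosed {G : Pt | ¬ F.bad n T G} := by
  rw [← isOpen_compl_iff]
  have h1 : {G : Pt | ¬ F.bad n T G}ᶜ = {G : Pt | F.bad n T G} := by
    ext G
    simp
  rw [h1, isOpen_iff_mem_nhds]
  intro G hG
  refine Filter.mem_of_superset ((isOpen_ag l n G).mem_nhds (Ag.refl l n G)) fun G' hG' => ?_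
  exact F.loc (Agree.refl n T) hG' hG

/-- The first condition. -/
noncomputable def cond0 : Cond where
  l := 0
  F := ⟨fun _ _ _ => False, fun _ _ h => h, fun h => h⟩
  T := fun _ => true
  m := 0
  c := 1 / 2
  tree := fun _ _ _ _ => rfl
  lt := by rw [M_full]; norm_num
  via := ⟨fun _ => par1, fun _ _ _ _ h => h⟩

/-- For countably many dense tasks there is a positive tree `T` and a point `G` such that all tasks
are fulfilled. -/
theorem generic (Q : ℕ → StrSet → Pt → Prop) (hQ : ∀ t, Dense (Q t)) :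
    ∃ (T : StrSet) (G : Pt), Positive T ∧ ∀ t, Q t T G := by
  choose nx hnx using fun t => dense_step (hQ t)
  let p : ℕ → Cond := fun i => Nat.rec cond0 (fun i q => nx i q) i
  have hp0 : p 0 = cond0 := rfl
  have hps : ∀ i, p (i + 1) = nx i (p i) := fun i => rfl
  have hE : ∀ i, (p i).Ext (p (i + 1)) := fun i => by rw [hps]; exact (hnx i (p i)).1
  have hmm : ∀ i, (p i).m < (p (i + 1)).m := fun i => by rw [hps]; exact (hnx i (p i)).2.1
  have hcc : ∀ i, (p i).c < (p (i + 1)).c := fun i => by rw [hps]; exact (hnx i (p i)).2.2.1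
  have hF : ∀ i, Forces (p (i + 1)) (Q i) := fun i => by rw [hps]; exact (hnx i (p i)).2.2.2
  have hEle : ∀ i j, i ≤ j → (p i).Ext (p j) := by
    intro i j hij
    induction j, hij using Nat.le_induction with
    | base => exact Cond.Ext.refl _
    | succ j _ ih => exact ih.trans (hE j)
  have hcmono : StrictMono fun i => (p i).c := strictMono_nat_of_lt_succ hcc
  have hcM : ∀ i j, (p i).c ≤ M (p j).T := by
    intro i j
    rcases le_total i j with hij | hij
    · exact (hcmono.monotone hij).trans (p j).lt.le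
    · exact (p i).lt.le.trans (hEle j i hij).mem.2.1.M
  have hbdd : BddAbove (Set.range fun i => (p i).c) := by
    refine ⟨M (p 0).T, ?_⟩
    rintro _ ⟨i, rfl⟩
    exact hcM i 0
  obtain ⟨Ts, h1, h2, h3, h4⟩ := limit_tree (fun i => (p i).T) (fun i => (p i).m) hmm
    (fun i => (p i).tree) (fun i => (hE i).mem.2.1) (fun i => (hE i).mem.2.2.1)
    (c := ⨆ i, (p i).c) (fun j => ciSup_le fun i => hcM i j)
  have h5 : ∀ i, (p i).c < M Ts := fun i =>
    (hcc i).trans_le ((le_ciSup hbdd (i + 1)).trans h4)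
  have h6 : ∀ i, Ts ∈ Nb (p i).T (p i).m (p i).c := fun i => ⟨h1, h2 i, h3 i, h5 i⟩
  have hpos : Positive Ts := by
    rw [positive_iff]
    refine ⟨h1, ?_⟩
    have h7 := h5 0
    rw [hp0] at h7
    have h8 : (1 : ℝ) / 2 < M Ts := h7
    linarith
  -- a point avoiding all events
  have hne : (⋂ i, {G : Pt | ¬ (p i).F.bad i Ts G}).Nonempty := by
    refine IsCompact.nonempty_iInter_of_sequence_nonempty_isCompact_isClosed
      (fun i => {G : Pt | ¬ (p i).F.bad i Ts G}) ?_ ?_ ?_ ?_
    · intro i G hG hb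
      exact hG ((p (i + 1)).F.mono ((hE i).F_le i Ts G hb))
    · intro i
      obtain ⟨π, hπ⟩ := (p i).via
      exact exists_avoid (hπ Ts (h6 i) i)
    · exact (isClosed_avoid _ _ _).isCompact
    · exact fun i => isClosed_avoid _ _ _
  obtain ⟨G, hG⟩ := hne
  rw [Set.mem_iInter] at hG
  have hG' : ∀ i n, ¬ (p i).F.bad n Ts G := by
    intro i n hb
    have h7 := (hEle i (max i n) (le_max_left i n)).F_le n Ts G hb
    exact hG (max i n) ((p (max i n)).F.mono_le (le_max_right i n) h7)
  exact ⟨Ts, G, hpos, fun t => hF t Ts (h6 (t + 1)) G (hG' (t + 1))⟩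

end Pool.Agent.NSI
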