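import Pool.Agent.NSI.MPath
import Pool.Agent.NSI.MFus
import Pool.Agent.NSI.Ideal

/-!
# NSI/MBold: the continuous theorem from the winning of requirements
-/

set_option autoImplicit false

namespace Pool.Agent.NSI

open Finset Filter Topology Pool.Agent.PTree Pool.Agent.OSM Pool.Agent.NST
open scoped Classical

/-- Requirements can be won. -/
def WinStmt : Prop :=
  ∀ {l : ℕ} {F : MF l} {T0 : StrSet} {m0 : ℕ} {c0 : ℝ}, IsTree T0 → c0 < M T0 →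
    Viable l F (Nb T0 m0 c0) → ∀ (E : Set (StrSet × (Fin l → ℕ → ℕ → Bool)))
      (Φ : StrSet × (Fin l → ℕ → ℕ → Bool) → StrSet), ContinuousOn Φ E →
      ∃ (F' : MF l) (T1 : StrSet) (m1 : ℕ) (c1 : ℝ), F.Le F' ∧ T1 ∈ Nb T0 m0 c0 ∧ m0 ≤ m1 ∧
        c0 ≤ c1 ∧ c1 < M T1 ∧ Viable l F' (Nb T1 m1 c1) ∧
        ∀ T ∈ Nb T1 m1 c1, ∀ G : Pt, (∀ n, ¬ F'.bad n T G) → (T, fun c : Fin l => G c) ∈ E →
          ¬ (Perfect (Φ (T, fun c : Fin l => G c)) ∧ Sub (Φ (T, fun c : Fin l => G c)) T)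

theorem dense_req (hwin : WinStmt) {l : ℕ} {E : Set (StrSet × (Fin l → ℕ → ℕ → Bool))}
    {Φ : StrSet × (Fin l → ℕ → ℕ → Bool) → StrSet} (hΦ : ContinuousOn Φ E) :
    Dense fun T G => (T, rs l G) ∈ E →
      ¬ (Perfect (Φ (T, rs l G)) ∧ Sub (Φ (T, rs l G)) T) := by
  refine dense_of_le l fun p hl => ?_
  have hcont : Continuous fun x : StrSet × (Fin p.l → ℕ → ℕ → Bool) =>
      ((x.1, fun c : Fin l => x.2 (c.castLE hl)) : StrSet × (Fin l → ℕ → ℕ → Bool)) :=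
    continuous_fst.prodMk (continuous_pi fun c => (continuous_apply _).comp continuous_snd)
  obtain ⟨F', T1, m1, c1, h1, h2, h3, h4, h5, h6, h7⟩ := hwin p.tree p.lt p.via
    {x | ((x.1, fun c : Fin l => x.2 (c.castLE hl)) : StrSet × (Fin l → ℕ → ℕ → Bool)) ∈ E}
    (fun x => Φ (x.1, fun c : Fin l => x.2 (c.castLE hl)))
    (hΦ.comp hcont.continuousOn fun x hx => hx)
  refine ⟨⟨p.l, F', T1, m1, c1, h2.1, h5, h6⟩, ⟨le_rfl, h1, h2, h3, h4⟩, ?_⟩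
  intro T hT G hG hE
  exact h7 T hT G hG hE

theorem bold_of_win (hwin : WinStmt) : Bold := by
  intro D Ψ hΨ hpos E Φ hΦ
  obtain ⟨f, hf⟩ := exists_surjective_nat ((ℕ × ℕ) ⊕ (ℕ × ℕ × ℕ) ⊕ (ℕ × ℕ × ℕ))
  set Q : (ℕ × ℕ) ⊕ (ℕ × ℕ × ℕ) ⊕ (ℕ × ℕ × ℕ) → StrSet → Pt → Prop := fun t T G =>
    Sum.elim (fun t : ℕ × ℕ => (T, rs t.1 G) ∈ E t.1 t.2 →
        ¬ (PTree.Perfect (Φ t.1 t.2 (T, rs t.1 G)) ∧ Sub (Φ t.1 t.2 (T, rs t.1 G)) T))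
      (Sum.elim (fun t : ℕ × ℕ × ℕ => (T, rs t.1 G) ∈ D t.1 t.2.1 →
          1 / ((t.2.2 : ℝ) + 1) ≤ M (Ψ t.1 t.2.1 (T, rs t.1 G)) →
            ∃ l', ∀ i n, Ψ t.1 t.2.1 (T, rs t.1 G) (seg (G l' i) n) = true)
        (fun t : ℕ × ℕ × ℕ => t.2.1 ≠ t.2.2 → G t.1 t.2.1 ≠ G t.1 t.2.2)) t with hQ
  have hdense : ∀ t, Dense (Q t) := by
    rintro (⟨l, e⟩ | ⟨l, e, i⟩ | ⟨j, a, a'⟩)
    · exact dense_req hwin (hΦ l e)
    · have h1 : (0 : ℝ) < (i : ℝ) + 1 := by positivity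
      exact dense_path (hΨ l e) (fun p hp => (hpos l e p hp).1) (by positivity)
        (by rw [div_le_one h1]; linarith [(Nat.cast_nonneg i : (0 : ℝ) ≤ (i : ℝ))])
    · by_cases ha : a = a'
      · intro p
        exact ⟨p, Cond.Ext.refl p, fun T _ G _ h => absurd ha h⟩
      · intro p
        obtain ⟨p', h1, h2⟩ := dense_dif (j := j) ha p
        exact ⟨p', h1, fun T hT G hG _ => h2 T hT G hG⟩
  obtain ⟨T, G, hT, hall⟩ := generic (fun t => Q (f t)) (fun t => hdense (f t))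
  have hQ' : ∀ t, Q t T G := by
    intro t
    obtain ⟨n, rfl⟩ := hf t
    exact hall n
  refine ⟨T, G, hT, fun l e hD => ?_, fun l e hE => ?_⟩
  · have hM : 0 < M (Ψ l e (T, rs l G)) := ((positive_iff _).1 (hpos l e _ hD)).2
    obtain ⟨i, hi⟩ := exists_nat_one_div_lt hM
    obtain ⟨l', hl'⟩ := hQ' (Sum.inr (Sum.inl (l, e, i))) hD hi.le
    refine ⟨l', fun a a' haa => ?_, hl'⟩
    by_contra hne
    exact hQ' (Sum.inr (Sum.inr (l', a, a'))) hne haa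
  · exact hQ' (Sum.inl (l, e)) hE

end Pool.Agent.NSI
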