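import Pool.Agent.NSI.MBasic
import Pool.Agent.NST.Meet

/-!
# NSI/MDist: two coordinates of the same level can be made different
-/

set_option autoImplicit false

namespace Pool.Agent.NSI

open Finset Pool.Agent.PTree Pool.Agent.OSM Pool.Agent.NST
open scoped Classical

/-- The coordinates `a` and `a'` of the level `j` are different below `n`. -/
def Dif (l j a a' : ℕ) (hj : j < l) : MF l where
  bad n _ G := a < n ∧ a' < n ∧ ∃ t < n, G j a t ≠ G j a' t
  loc := fun _ h ⟨h1, h2, t, ht, h3⟩ => ⟨h1, h2, t, ht, by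
    rw [h j hj a h1 t ht, h j hj a' h2 t ht]; exact h3⟩
  mono := fun ⟨h1, h2, t, ht, h3⟩ => ⟨h1.trans (Nat.lt_succ_self _), h2.trans (Nat.lt_succ_self _),
    t, ht.trans (Nat.lt_succ_self _), h3⟩

theorem card_same {α : Type} [Fintype α] {k : ℕ} {a a' : Fin k} (ha : a ≠ a') :
    ((univ : Finset (Fin k → α)).filter fun x => x a = x a').card * Fintype.card α ≤
      Fintype.card (Fin k → α) := by
  have hinj : Set.InjOn (fun p : (Fin k → α) × α => Function.update p.1 a p.2)
      ((((univ : Finset (Fin k → α)).filter fun x => x a = x a') ×ˢ (univ : Finset α) :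
        Finset _) : Set ((Fin k → α) × α)) := by
    rintro ⟨x, z⟩ hx ⟨x', z'⟩ hx' h
    simp only [Finset.coe_product, Finset.coe_filter, Finset.mem_univ, true_and,
        Set.mem_prod, Set.mem_ofPred_eq, Finset.coe_univ, Set.mem_univ, and_true] at hx hx'
    simp only at h
    have hz : z = z' := by
      have := congrFun h a
      rwa [Function.update_self, Function.update_self] at this
    have hne : ∀ b, b ≠ a → x b = x' b := by
      intro b hb
      have := congrFun h b
      rwa [Function.update_of_ne hb, Function.update_of_ne hb] at this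
    have hxx : x = x' := by
      funext b
      by_cases hb : b = a
      · subst hb
        rw [hx, hx']
        exact hne a' (Ne.symm ha)
      · exact hne b hb
    rw [hxx, hz]
  have h1 := Finset.card_le_card_of_injOn (t := univ)
    (fun p : (Fin k → α) × α => Function.update p.1 a p.2) (fun _ _ => Finset.mem_univ _) hinj
  rwa [Finset.card_product, Finset.card_univ, Finset.card_univ] at h1

/-- For large `n` all pieces of information satisfy `BB (Dif ..)`. -/
theorem bb_dif (j : ℕ) {a a' : ℕ} (ha : a ≠ a') (κ : Par) :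
    ∃ n0, ∀ n ≥ n0, ∀ T G,
      (BB (Dif (j + 1) j a a' (Nat.lt_succ_self j)) κ.k κ.q κ.s).bad n T G := by
  have hmin : 0 < min κ.q κ.s := lt_min κ.hq κ.hs
  obtain ⟨d, hd⟩ := exists_pow_lt_of_lt_one hmin (show (1 / 2 : ℝ) < 1 by norm_num)
  refine ⟨max d (max (a + 1) (a' + 1)), fun n hn T G => ?_⟩
  have hdn : d ≤ n := (le_max_left _ _).trans hn
  have han : a < n := by
    have := (le_max_left (a + 1) (a' + 1)).trans ((le_max_right d _).trans hn)
    omega
  have han' : a' < n := by
    have := (le_max_right (a + 1) (a' + 1)).trans ((le_max_right d _).trans hn)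
    omega
  have hpow : (1 / 2 : ℝ) ^ n < min κ.q κ.s :=
    lt_of_le_of_lt (pow_le_pow_of_le_one (by norm_num) (by norm_num) hdn) hd
  have hcard : (Fintype.card (Sn n) : ℝ) = 2 ^ n := by
    rw [Fintype.card_fun, Fintype.card_fin, Fintype.card_bool]
    push_cast
    rfl
  show b ((Dif (j + 1) j a a' (Nat.lt_succ_self j)).slice G) n T κ.k κ.q < κ.s
  -- sequences with given cuts
  have hseq : ∀ (x : Fin κ.k → Sn n) (R : Finset (Sn n)),
      Good ((Dif (j + 1) j a a' (Nat.lt_succ_self j)).slice G) n T x R →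
      ∀ y : ℕ → Sn n, (∀ i : Fin κ.k, y i = x i) → (∀ i, κ.k ≤ i → y i ∈ R) → y a = y a' := by
    intro x R hg y hy1 hy2
    set H : ℕ → ℕ → Bool := fun i t => if h : t < n then y i ⟨t, h⟩ else false with hH
    have hcut : ∀ i, cut n (H i) = y i := by
      intro i
      funext t
      simp only [hH, cut]
      rw [dif_pos t.2]
    by_contra hne
    refine hg H (fun i => by rw [hcut]; exact hy1 i) (fun i hi => by rw [hcut]; exact hy2 i hi) ?_
    obtain ⟨t, ht⟩ := Function.ne_iff.1 hne
    refine ⟨han, han', t, t.2, ?_⟩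
    rw [Function.update_self]
    simp only [hH]
    rw [dif_pos t.2, dif_pos t.2]
    exact ht
  -- two elements of a reservoir
  have htwo : ∀ R : Finset (Sn n), κ.q ≤ OSM.dens R → 1 < R.card := by
    intro R hR
    by_contra hc
    rw [not_lt] at hc
    have h1 : OSM.dens R ≤ (1 / 2) ^ n := by
      rw [OSM.dens, hcard, one_div, inv_pow, div_eq_mul_inv]
      have h2 : (R.card : ℝ) ≤ 1 := by exact_mod_cast hc
      have h3 : (0 : ℝ) ≤ (2 ^ n)⁻¹ := by positivity
      nlinarith
    have h2 := hpow.trans_le (min_le_left _ _)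
    linarith
  by_cases hk : a < κ.k ∧ a' < κ.k
  · have hsub : gs ((Dif (j + 1) j a a' (Nat.lt_succ_self j)).slice G) n T κ.k κ.q ⊆
        (univ : Finset (Fin κ.k → Sn n)).filter fun x => x ⟨a, hk.1⟩ = x ⟨a', hk.2⟩ := by
      intro x hx
      rw [mem_gs] at hx
      obtain ⟨R, hR, hg⟩ := hx
      rw [Finset.mem_filter]
      refine ⟨Finset.mem_univ _, ?_⟩
      obtain ⟨z, hz⟩ := Finset.card_pos.1 ((Nat.zero_lt_one).trans (htwo R hR))
      have h1 := hseq x R hg (fun i => if h : i < κ.k then x ⟨i, h⟩ else z)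
        (fun i => by rw [dif_pos i.2]) (fun i hi => by rw [dif_neg (by omega)]; exact hz)
      rwa [dif_pos hk.1, dif_pos hk.2] at h1
    refine lt_of_le_of_lt (dens_mono hsub) ?_
    have hne : (⟨a, hk.1⟩ : Fin κ.k) ≠ ⟨a', hk.2⟩ := fun h => ha (congrArg Fin.val h)
    have h2 : ((univ : Finset (Fin κ.k → Sn n)).filter
        fun x => x ⟨a, hk.1⟩ = x ⟨a', hk.2⟩).card * Fintype.card (Sn n) ≤
        Fintype.card (Fin κ.k → Sn n) := by
      convert card_same (α := Sn n) hne
    have h3 : ((((univ : Finset (Fin κ.k → Sn n)).filter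
        fun x => x ⟨a, hk.1⟩ = x ⟨a', hk.2⟩).card : ℕ) : ℝ) * 2 ^ n ≤
        (Fintype.card (Fin κ.k → Sn n) : ℝ) := by
      rw [← hcard]
      exact_mod_cast h2
    have hpos : 0 < (Fintype.card (Fin κ.k → Sn n) : ℝ) := by
      exact_mod_cast Fintype.card_pos
    refine lt_of_le_of_lt ?_ (hpow.trans_le (min_le_right _ _))
    rw [OSM.dens, div_le_iff₀ hpos, one_div, inv_pow, ← div_eq_inv_mul,
      le_div_iff₀ (by positivity)]
    exact h3
  · have hempty : gs ((Dif (j + 1) j a a' (Nat.lt_succ_self j)).slice G) n T κ.k κ.q = ∅ := by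
      rw [Finset.eq_empty_iff_forall_notMem]
      intro x hx
      rw [mem_gs] at hx
      obtain ⟨R, hR, hg⟩ := hx
      obtain ⟨z, hz, z', hz', hzz⟩ := Finset.one_lt_card.1 (htwo R hR)
      rw [not_and_or] at hk
      -- `y a` does not depend on the other reservoir coordinate
      have key : ∀ c c' : ℕ, c ≠ c' → ¬ c' < κ.k →
          (∀ y : ℕ → Sn n, (∀ i : Fin κ.k, y i = x i) → (∀ i, κ.k ≤ i → y i ∈ R) →
            y c = y c') → False := by
        intro c c' hcc hc' hy
        have h1 : ∀ w ∈ R, (if h : c < κ.k then x ⟨c, h⟩ else z) = w := by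
          intro w hw
          have h2 := hy (fun i => if h : i < κ.k then x ⟨i, h⟩ else if i = c' then w else z)
            (fun i => by rw [dif_pos i.2]) (fun i hi => by
              rw [dif_neg (by omega)]
              split_ifs
              · exact hw
              · exact hz)
          simpa only [hc', hcc, dite_false, if_false, if_true] using h2
        exact hzz ((h1 z hz).symm.trans (h1 z' hz'))
      rcases hk with hk | hk
      · exact key a' a (Ne.symm ha) hk fun y h1 h2 => (hseq x R hg y h1 h2).symm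
      · exact key a a' ha hk fun y h1 h2 => hseq x R hg y h1 h2
    rw [b, hempty]
    have : OSM.dens (∅ : Finset (Fin κ.k → Sn n)) = 0 := by simp [OSM.dens]
    rw [this]
    exact κ.hs

theorem met_dif {l : ℕ} (π : ℕ → Par) {j a a' : ℕ} (hj : j < l) (ha : a ≠ a') :
    ∃ n0, ∀ n ≥ n0, ∀ T G, (Met l π (Dif l j a a' hj)).bad n T G := by
  induction l with
  | zero => exact absurd hj (Nat.not_lt_zero j)
  | succ l ih =>
    rcases Nat.lt_succ_iff_lt_or_eq.1 hj with h | rfl
    · obtain ⟨n0, hn0⟩ := ih h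
      refine ⟨n0, fun n hn T G => ?_⟩
      refine Met_mono (F := Dif l j a a' h) ?_ π n T G (hn0 n hn T G)
      intro n' T' G' hb
      refine BB_of_all (fun H => ?_) _ (π l).hq (π l).hs
      obtain ⟨h1, h2, t, ht, h3⟩ := hb
      refine ⟨h1, h2, t, ht, ?_⟩
      rw [Function.update_of_ne h.ne]
      exact h3
    · obtain ⟨n0, hn0⟩ := bb_dif j ha (π j)
      exact ⟨n0, fun n hn T G => Met_of_all (fun G' => hn0 n hn T G') π G⟩

theorem unb_dif {l : ℕ} (F : MF l) {j a a' : ℕ} (hj : j < l) (ha : a ≠ a') (N : Set StrSet) :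
    Unb l (F.or (Dif l j a a' hj)) N := by
  rintro T1 m1 c1 hT hc - ⟨π, hπ⟩
  obtain ⟨n0, hn0⟩ := met_dif π hj ha
  exact hπ T1 (Nb.self hT _ hc) n0 (fun _ _ _ => false)
    (Met_mono (MF.le_or_right _ _) π _ _ _ (hn0 n0 le_rfl T1 _))

/-- The new condition obtained from `realize`. -/
theorem realize_cond {l : ℕ} (p : Cond) (hl : p.l = l) {O : MF p.l}
    (hu : Unb p.l (p.F.or O) (Nb p.T p.m p.c)) :
    ∃ p' : Cond, p.Ext p' ∧ ∃ (γ : Pt) (n : ℕ), O.bad n p'.T γ ∧
      ∀ T ∈ Nb p'.T p'.m p'.c, ∀ G : Pt, (∀ n, ¬ p'.F.bad n T G) →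
        Agree n p'.T T ∧ Ag p.l n γ G := by
  obtain ⟨T1, m1, c1, h1, h2, h3, h4, γ, n, h5, h6, h7⟩ := realize p.tree p.lt p.via hu
  refine ⟨⟨p.l, p.F.or (pin p.l n γ), T1, m1, c1, h1.1, h4, h7⟩,
    ⟨le_rfl, fun n' T G hb => Or.inl hb, h1, h2, h3⟩, γ, n, h6, fun T hT G hG =>
      ⟨hT.2.2.1.mono h5, ?_⟩⟩
  by_contra hcon
  exact hG n (Or.inr ⟨le_rfl, hcon⟩)

theorem dense_dif {j a a' : ℕ} (ha : a ≠ a') : Dense fun _ G => G j a ≠ G j a' := by
  refine dense_of_le (j + 1) fun p hp => ?_
  obtain ⟨p', h1, γ, n, h2, h3⟩ := realize_cond p rfl (unb_dif p.F hp ha (Nb p.T p.m p.c))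
  refine ⟨p', h1, fun T hT G hG heq => ?_⟩
  obtain ⟨h4, h5⟩ := h3 T hT G hG
  obtain ⟨h6, h7, t, ht, h8⟩ := h2
  apply h8
  rw [← h5 j hp a h6 t ht, ← h5 j hp a' h7 t ht, heq]

end Pool.Agent.NSI
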