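import Pool.Agent.NSI.MDist

/-!
# NSI/MPath: new levels
-/

set_option autoImplicit false

namespace Pool.Agent.NSI

open Finset Filter Topology Pool.Agent.PTree Pool.Agent.OSM Pool.Agent.NST
open scoped Classical

/-- The first `l` levels. -/
def rs (l : ℕ) (G : Pt) : Fin l → ℕ → ℕ → Bool := fun c => G c

theorem cont_pt {l : ℕ} {D : Set (StrSet × (Fin l → ℕ → ℕ → Bool))}
    {Ψ : StrSet × (Fin l → ℕ → ℕ → Bool) → StrSet} (h : ContinuousOn Ψ D) {T : StrSet}
    {G : Pt} (hp : (T, rs l G) ∈ D) (K : ℕ) :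
    ∃ m, ∀ (T' : StrSet) (G' : Pt), (T', rs l G') ∈ D → Agree m T T' → Ag l m G G' →
      Agree K (Ψ (T, rs l G)) (Ψ (T', rs l G')) := by
  by_contra hcon
  push Not at hcon
  choose T' G' h1 h2 h3 h4 using hcon
  have h5 : Tendsto (fun n => (T' n, rs l (G' n))) atTop (𝓝 (T, rs l G)) := by
    rw [nhds_prod_eq]
    refine Tendsto.prodMk ?_ ?_
    · rw [tendsto_pi_nhds]
      intro σ
      refine tendsto_const_nhds.congr' ?_
      filter_upwards [eventually_gt_atTop σ.length] with n hn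
      exact (h2 n σ hn).symm
    · rw [tendsto_pi_nhds]
      intro c
      rw [tendsto_pi_nhds]
      intro i
      rw [tendsto_pi_nhds]
      intro j
      refine tendsto_const_nhds.congr' ?_
      filter_upwards [eventually_gt_atTop i, eventually_gt_atTop j] with n hn hm
      exact (h3 n c c.2 i hn j hm).symm
  have h6 : Tendsto (fun n => (T' n, rs l (G' n))) atTop (𝓝[D] (T, rs l G)) :=
    tendsto_nhdsWithin_iff.2 ⟨h5, Eventually.of_forall fun n => h1 n⟩
  have h7 : Tendsto (fun n => Ψ (T' n, rs l (G' n))) atTop (𝓝 (Ψ (T, rs l G))) :=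
    (h (T, rs l G) hp).tendsto.comp h6
  have h8 : ∀ᶠ n in atTop, Agree K (Ψ (T, rs l G)) (Ψ (T' n, rs l (G' n))) :=
    h7 (agree_mem_nhds (Ψ (T, rs l G)) K)
  obtain ⟨n, hn⟩ := h8.exists
  exact h4 n hn

/-- Some coordinate of the new level is not a possible path of `Ψ`. -/
def FP (l L : ℕ) (hl : l ≤ L) (D : Set (StrSet × (Fin l → ℕ → ℕ → Bool)))
    (Ψ : StrSet × (Fin l → ℕ → ℕ → Bool) → StrSet) (htree : ∀ p ∈ D, IsTree (Ψ p)) :
    MF (L + 1) where
  bad n T G := ∃ i < n, ¬ ∃ (T' : StrSet) (G' : Pt), (T', rs l G') ∈ D ∧ Agree n T T' ∧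
    Ag l n G G' ∧ Ψ (T', rs l G') (seg (G L i) n) = true
  loc := fun {n T T1 G G1} h h' ⟨i, hi, hb⟩ => ⟨i, hi, fun ⟨T', G', h1, h2, h3, h4⟩ => hb
    ⟨T', G', h1, h.trans h2, (h'.mono (by omega) le_rfl).trans h3, by
      have h5 : seg (G1 L i) n = seg (G L i) n := by
        rw [seg_eq_iff]
        intro t ht
        exact h' L (Nat.lt_succ_self L) i hi t ht
      rw [← h5]
      exact h4⟩⟩
  mono := fun {n T G} ⟨i, hi, hb⟩ => ⟨i, hi.trans (Nat.lt_succ_self _),
    fun ⟨T', G', h1, h2, h3, h4⟩ => hb ⟨T', G', h1, h2.mono (Nat.le_succ _),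
      h3.mono le_rfl (Nat.le_succ _), htree _ h1 _ _ (seg_prefix _ (Nat.le_succ n)) h4⟩⟩

theorem M_le_dens (S : StrSet) (n : ℕ) :
    M S ≤ OSM.dens ((univ : Finset (Sn n)).filter fun y => S (List.ofFn y) = true) := by
  have h1 := M_le_lv S n
  rw [coin_lv] at h1
  refine h1.trans (le_of_eq ?_)
  have h2 : ((strs n).filter (fun σ => S σ = true)).card =
      ((univ : Finset (Fin n → Bool)).filter fun v => S (List.ofFn v) = true).card := by
    rw [strs, Finset.filter_image, Finset.card_image_of_injective _ List.ofFn_injective]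
  rw [OSM.dens, h2, Fintype.card_fun, Fintype.card_fin, Fintype.card_bool, div_eq_mul_inv]
  congr 1
  push_cast
  rw [one_mul, inv_pow]

theorem dense_path {l : ℕ} {D : Set (StrSet × (Fin l → ℕ → ℕ → Bool))}
    {Ψ : StrSet × (Fin l → ℕ → ℕ → Bool) → StrSet} (hΨ : ContinuousOn Ψ D)
    (htree : ∀ p ∈ D, IsTree (Ψ p)) {q : ℝ} (hq : 0 < q) (hq1 : q ≤ 1) :
    Dense fun T G => (T, rs l G) ∈ D → q ≤ M (Ψ (T, rs l G)) →
      ∃ l', ∀ i n, Ψ (T, rs l G) (seg (G l' i) n) = true := by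
  refine dense_of_le l fun p hl => ?_
  by_cases hu : Unb (p.l + 1) ((p.F.lift (Nat.le_succ p.l)).or (FP l p.l hl D Ψ htree))
      (Nb p.T p.m p.c)
  · -- the new level does not exist
    have h1 := unb_bb hu ⟨0, q, 1, hq, hq1, one_pos, le_rfl⟩
    obtain ⟨p', h2, γ, n, h3, h4⟩ := realize_cond p rfl
      (h1.mono (MF.le_or_right p.F _) subset_rfl)
    refine ⟨p', h2, fun T hT G hG hD hM => ?_⟩
    obtain ⟨h5, h6⟩ := h4 T hT G hG
    have h7 := MF.loc _ h5 h6 h3
    exfalso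
    have h8 : b (((p.F.lift (Nat.le_succ p.l)).or (FP l p.l hl D Ψ htree)).slice G) n T 0 q < 1 :=
      h7
    have h9 : gs (((p.F.lift (Nat.le_succ p.l)).or (FP l p.l hl D Ψ htree)).slice G) n T 0 q =
        univ := by
      rw [Finset.eq_univ_iff_forall]
      intro x
      rw [mem_gs]
      refine ⟨(univ : Finset (Sn n)).filter fun y => Ψ (T, rs l G) (List.ofFn y) = true,
        hM.trans (M_le_dens _ n), fun H _ hH hbad => ?_⟩
      rcases hbad with hbad | ⟨i, hi, hbad⟩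
      · refine hG n (h2.F_le n T G ?_)
        exact p.F.loc (Agree.refl n T) (fun c hc i _ j _ => by
          rw [Function.update_of_ne hc.ne]) hbad
      · refine hbad ⟨T, G, hD, Agree.refl n T, fun c hc i _ j _ => by
          rw [Function.update_of_ne (by omega)], ?_⟩
        rw [Function.update_self, seg_eq_ofFn]
        exact (Finset.mem_filter.1 (hH i (Nat.zero_le i))).2
    rw [b, h9, OSM.dens_univ] at h8
    exact lt_irrefl _ h8
  · -- the new level
    unfold Unb at hu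
    push Not at hu
    obtain ⟨T1, m1, c1, h1, h2, h3, h4⟩ := hu
    have h5 : T1 ∈ Nb p.T p.m p.c := h3 (Nb.self h1 _ h2)
    refine ⟨⟨p.l + 1, _, T1, max p.m m1, max p.c c1, h1, max_lt h5.2.2.2 h2,
      h4.mono (MF.Le.refl _) (Nb.subset (Nb.self h1 _ h2) (le_max_right _ _)
        (le_max_right _ _))⟩,
      ⟨Nat.le_succ _, fun n T G hb => Or.inl hb, h5, le_max_left _ _, le_max_left _ _⟩, ?_⟩
    intro T hT G hG hD hM
    refine ⟨p.l, fun i K => ?_⟩
    obtain ⟨m, hm⟩ := cont_pt hΨ hD (K + 1)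
    have h6 : ¬ (FP l p.l hl D Ψ htree).bad (max (max m K) (i + 1)) T G := fun hb =>
      hG _ (Or.inr hb)
    have h7 : ∃ (T' : StrSet) (G' : Pt), (T', rs l G') ∈ D ∧
        Agree (max (max m K) (i + 1)) T T' ∧ Ag l (max (max m K) (i + 1)) G G' ∧
        Ψ (T', rs l G') (seg (G p.l i) (max (max m K) (i + 1))) = true := by
      by_contra hc
      exact h6 ⟨i, lt_of_lt_of_le (Nat.lt_succ_self i) (le_max_right _ _), hc⟩
    obtain ⟨T', G', h8, h9, h10, h11⟩ := h7
    have h12 : m ≤ max (max m K) (i + 1) := (le_max_left _ _).trans (le_max_left _ _)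
    have h13 := hm T' G' h8 (h9.mono h12) (h10.mono le_rfl h12)
    have h14 : Ψ (T', rs l G') (seg (G p.l i) K) = true :=
      htree _ h8 _ _ (seg_prefix _ ((le_max_right _ _).trans (le_max_left _ _))) h11
    rw [← h13 _ (by rw [seg_length]; exact Nat.lt_succ_self K)]
    exact h14

end Pool.Agent.NSI
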