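import Pool.Agent.NSI.Rec

/-!
# Turing ideals are models of `RCA₀`

For an increasing sequence of oracles the sets computable from one of them are the second-order part
of an `ω`-model of `RCA₀`.
-/

set_option autoImplicit false

namespace Pool.Agent.NSI

open scoped Classical

variable {o : ℕ →. ℕ}

/-- Search. -/
theorem RecF.find {g : ℕ → ℕ} (hg : RecF o g) (h : ∀ m, ∃ x, g (Nat.pair m x) = 0) :
    RecF o fun m => Nat.find (h m) := by
  refine (Nat.RecursiveIn.rfind hg).of_eq fun a => ?_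
  rw [Part.eq_some_iff, Nat.mem_rfind]
  refine ⟨?_, fun {m} hm => ?_⟩
  · rw [Part.map_eq_map, Part.map_some, Part.mem_some_iff]
    exact (decide_eq_true (Nat.find_spec (h a))).symm
  · rw [Part.map_eq_map, Part.map_some, Part.mem_some_iff]
    exact (decide_eq_false (Nat.find_min (h a) hm)).symm

/-- `Δ⁰₁` comprehension. -/
theorem recF_delta (S : Set (Set ℕ)) (φ ψ : Bd) {oj : ℕ → ℕ →. ℕ} {X : ℕ → Set ℕ}
    (hX : ∀ i, ∃ l0, ∀ l, l0 ≤ l → RecF (oj l) fun n => if n ∈ X i then 1 else 0) (v : ℕ → ℕ)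
    (h : ∀ m : ℕ, SigmaOne (omega S) X φ v m ↔ PiOne (omega S) X ψ v m) :
    ∃ l, RecF (oj l) fun m => if SigmaOne (omega S) X φ v m then 1 else 0 := by
  obtain ⟨l1, hF⟩ := recF_sat S hX v φ
  obtain ⟨l2, hH⟩ := recF_sat S hX v ψ
  refine ⟨max l1 l2, ?_⟩
  replace hF := hF (max l1 l2) (le_max_left _ _) 2
  replace hH := hH (max l1 l2) (le_max_right _ _) 2
  obtain ⟨o, ho⟩ : ∃ o, o = oj (max l1 l2) := ⟨_, rfl⟩
  rw [← ho] at hF hH ⊢
  have hdec : ∀ x m : ℕ, dec v 2 (Nat.pair x (Nat.pair m 0)) = push x (push m v) := by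
    intro x m
    rw [dec_pair, dec_pair]
    rfl
  -- the code of the assignment `x, m, v 0, ...` from `pair m x`
  have henv : RecF o fun p => Nat.pair (Nat.unpair p).2 (Nat.pair (Nat.unpair p).1 0) :=
    RecF.right.pair (RecF.left.pair (RecF.const 0))
  have hg : RecF o fun p =>
      if φ.Sat (omega S) X (dec v 2 (Nat.pair (Nat.unpair p).2
        (Nat.pair (Nat.unpair p).1 0))) ∨ ¬ ψ.Sat (omega S) X (dec v 2
        (Nat.pair (Nat.unpair p).2 (Nat.pair (Nat.unpair p).1 0))) then 0 else 1 := by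
    have h3 : Primrec₂ fun a b : ℕ => if a = 1 ∨ b = 0 then 0 else 1 := by
      refine Primrec.ite ?_ (Primrec.const 0) (Primrec.const 1)
      exact (Primrec.eq.comp Primrec.fst (Primrec.const 1)).or
        (Primrec.eq.comp Primrec.snd (Primrec.const 0))
    refine (RecF.comp₂ h3 (hF.comp henv) (hH.comp henv)).of_eq fun p => ?_
    by_cases h1 : φ.Sat (omega S) X (dec v 2 (Nat.pair (Nat.unpair p).2
        (Nat.pair (Nat.unpair p).1 0))) <;>
      by_cases h2 : ψ.Sat (omega S) X (dec v 2 (Nat.pair (Nat.unpair p).2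
        (Nat.pair (Nat.unpair p).1 0))) <;> simp [h1, h2]
  have hex : ∀ m : ℕ, ∃ x : ℕ, (if φ.Sat (omega S) X (dec v 2
      (Nat.pair (Nat.unpair (Nat.pair m x)).2 (Nat.pair (Nat.unpair (Nat.pair m x)).1 0))) ∨
      ¬ ψ.Sat (omega S) X (dec v 2 (Nat.pair (Nat.unpair (Nat.pair m x)).2
        (Nat.pair (Nat.unpair (Nat.pair m x)).1 0))) then 0 else 1) = 0 := by
    intro m
    simp only [Nat.unpair_pair, hdec]
    by_cases hm : SigmaOne (omega S) X φ v m
    · obtain ⟨x, hx⟩ := hm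
      exact ⟨x, if_pos (Or.inl hx)⟩
    · have h4 : ¬ PiOne (omega S) X ψ v m := fun h5 => hm ((h m).2 h5)
      unfold PiOne at h4
      push Not at h4
      obtain ⟨x, hx⟩ := h4
      exact ⟨x, if_pos (Or.inr hx)⟩
  have hfind := RecF.find hg hex
  have hres := hF.comp (henv.comp (RecF.id.pair hfind))
  refine hres.of_eq fun m => if_congr ?_ rfl rfl
  have hsp := Nat.find_spec (hex m)
  generalize Nat.find (hex m) = x at hsp ⊢
  simp only [Nat.unpair_pair, hdec] at hsp ⊢
  constructor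
  · intro h1
    exact ⟨_, h1⟩
  · intro h1
    by_contra h2
    have h3 : ¬ (φ.Sat (omega S) X (push x (push m v)) ∨
        ¬ ψ.Sat (omega S) X (push x (push m v))) := by
      rintro (h4 | h4)
      · exact h2 h4
      · exact h4 (((h m).1 h1) _)
    exact absurd ((if_neg h3).symm.trans hsp) (by norm_num)

theorem chi_empty : chi (∅ : Set ℕ) = fun _ => Part.some 0 := by
  funext n
  simp [chi]

/-- For an increasing sequence of oracles, the sets computable from one of them form an `ω`-model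
of `RCA₀`. -/
theorem rca_of_chain (oj : ℕ → ℕ →. ℕ)
    (hmono : ∀ l l', l ≤ l' → Nat.RecursiveIn {oj l'} (oj l)) :
    RCA0 (omega {Z : Set ℕ | ∃ l, Nat.RecursiveIn {oj l} (chi Z)}) where
  nonempty := by
    exact ⟨(∅ : Set ℕ), 0, by rw [chi_empty]; exact RecF.const 0⟩
  succ_ne_zero m := Nat.succ_ne_zero m
  succ_inj m n h := Nat.succ.inj h
  add_zero m := Nat.add_zero m
  add_succ m n := rfl
  mul_zero m := Nat.mul_zero m
  mul_succ m n := Nat.mul_succ m n
  not_lt_zero m := Nat.not_lt_zero m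
  lt_succ m n := Nat.lt_succ_iff_lt_or_eq
  ind := by
    intro φ X _ v h0 hs m
    exact Nat.rec (motive := fun m => SigmaOne (omega _) X φ v m) h0 (fun m hm => hs m hm) m
  comp := by
    intro φ ψ X hX v h
    have hX' : ∀ i, ∃ l0, ∀ l, l0 ≤ l → RecF (oj l) fun n => if n ∈ X i then 1 else 0 := by
      intro i
      obtain ⟨l0, hl0⟩ := hX i
      refine ⟨l0, fun l hl => ?_⟩
      refine Nat.RecursiveIn.subst hl0 fun g hg => ?_
      rw [Set.mem_singleton_iff] at hg
      subst hg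
      exact hmono _ _ hl
    obtain ⟨l, hl⟩ := recF_delta _ φ ψ hX' v h
    exact ⟨{m | SigmaOne (omega _) X φ v m}, ⟨l, hl⟩, fun m => Iff.rfl⟩

end Pool.Agent.NSI
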