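import Pool.Agent.NSI.Lang

/-!
# Relative computability: closure properties, truth of `Δ⁰₀` formulas

-/

set_option autoImplicit false

namespace Pool.Agent.NSI

open scoped Classical

/-- `f` is computable relative to the oracle `o`. -/
def RecF (o : ℕ →. ℕ) (f : ℕ → ℕ) : Prop := Nat.RecursiveIn {o} fun n => Part.some (f n)

/-- The characteristic function of a set of numbers. -/
noncomputable def chi (Z : Set ℕ) : ℕ →. ℕ := fun n => Part.some (if n ∈ Z then 1 else 0)

variable {o : ℕ →. ℕ}

theorem RecF.of_eq {f g : ℕ → ℕ} (h : RecF o f) (hfg : ∀ n, f n = g n) : RecF o g := by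
  have : f = g := funext hfg
  rwa [← this]

theorem RecF.comp {f g : ℕ → ℕ} (hf : RecF o f) (hg : RecF o g) : RecF o fun n => f (g n) := by
  refine (Nat.RecursiveIn.comp hf hg).of_eq fun n => ?_
  simp

theorem RecF.pair {f g : ℕ → ℕ} (hf : RecF o f) (hg : RecF o g) :
    RecF o fun n => Nat.pair (f n) (g n) := by
  refine (Nat.RecursiveIn.pair hf hg).of_eq fun n => ?_
  simp [Seq.seq]

theorem RecF.of_primrec {f : ℕ → ℕ} (hf : Nat.Primrec f) : RecF o f := hf.recursiveIn

theorem RecF.id : RecF o fun n => n := RecF.of_primrec Nat.Primrec.id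

theorem RecF.const (c : ℕ) : RecF o fun _ => c := RecF.of_primrec (Nat.Primrec.const c)

theorem RecF.left : RecF o fun n => (Nat.unpair n).1 := RecF.of_primrec Nat.Primrec.left

theorem RecF.right : RecF o fun n => (Nat.unpair n).2 := RecF.of_primrec Nat.Primrec.right

theorem RecF.comp₂ {h : ℕ → ℕ → ℕ} (hh : Primrec₂ h) {f g : ℕ → ℕ} (hf : RecF o f)
    (hg : RecF o g) : RecF o fun n => h (f n) (g n) := by
  have h1 : Nat.Primrec (Nat.unpaired h) := Primrec₂.unpaired'.2 hh
  refine ((RecF.of_primrec h1).comp (hf.pair hg)).of_eq fun n => ?_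
  simp

/-- Primitive recursion with parameter. -/
theorem RecF.rec {f : ℕ → ℕ} {g : ℕ → ℕ} (hf : RecF o f) (hg : RecF o g) :
    RecF o fun p => Nat.rec (f (Nat.unpair p).1)
      (fun y ih => g (Nat.pair (Nat.unpair p).1 (Nat.pair y ih))) (Nat.unpair p).2 := by
  refine (Nat.RecursiveIn.prec hf hg).of_eq fun p => ?_
  simp only
  induction (Nat.unpair p).2 with
  | zero => rfl
  | succ n ih =>
    simp only [ih]
    simp

/-- Bounded universal quantifier. -/
theorem RecF.ball {g t : ℕ → ℕ} (hg : RecF o g) (ht : RecF o t) :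
    RecF o fun c => if ∀ x < t c, g (Nat.pair x c) = 1 then 1 else 0 := by
  have hstep : RecF o fun q => if g (Nat.pair (Nat.unpair (Nat.unpair q).2).1
      (Nat.unpair q).1) = 1 ∧ (Nat.unpair (Nat.unpair q).2).2 = 1 then 1 else 0 := by
    have h1 : RecF o fun q => g (Nat.pair (Nat.unpair (Nat.unpair q).2).1 (Nat.unpair q).1) :=
      hg.comp ((RecF.left.comp RecF.right).pair RecF.left)
    have h2 : RecF o fun q => (Nat.unpair (Nat.unpair q).2).2 := RecF.right.comp RecF.right
    have h3 : Primrec₂ fun a b : ℕ => if a = 1 ∧ b = 1 then 1 else 0 := by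
      refine Primrec.ite ?_ (Primrec.const 1) (Primrec.const 0)
      exact (Primrec.eq.comp Primrec.fst (Primrec.const 1)).and
        (Primrec.eq.comp Primrec.snd (Primrec.const 1))
    exact (RecF.comp₂ h3 h1 h2).of_eq fun n => by split_ifs <;> rfl
  have h := (RecF.rec (RecF.const (o := o) 1) hstep).comp (RecF.id.pair ht)
  refine h.of_eq fun c => ?_
  simp only [Nat.unpair_pair]
  generalize t c = n
  induction n with
  | zero => simp
  | succ n ih =>
    simp only
    rw [ih]
    by_cases h1 : ∀ x < n, g (Nat.pair x c) = 1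
    · by_cases h2 : g (Nat.pair n c) = 1
      · have h3 : ∀ x < n + 1, g (Nat.pair x c) = 1 := by
          intro x hx
          rcases Nat.lt_succ_iff_lt_or_eq.1 hx with h | rfl
          · exact h1 x h
          · exact h2
        rw [if_pos h3, if_pos ⟨h2, if_pos h1⟩]
      · have h3 : ¬ ∀ x < n + 1, g (Nat.pair x c) = 1 := fun h => h2 (h n (Nat.lt_succ_self n))
        rw [if_neg h3, if_neg fun h => h2 h.1]
    · have h3 : ¬ ∀ x < n + 1, g (Nat.pair x c) = 1 := fun h =>
        h1 fun x hx => h x (hx.trans (Nat.lt_succ_self n))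
      rw [if_neg h3, if_neg]
      rintro ⟨-, h⟩
      rw [if_neg h1] at h
      exact absurd h (by norm_num)

/-- The assignment with `k` values coded by `c`, followed by `v`. -/
def dec (v : ℕ → ℕ) : ℕ → ℕ → ℕ → ℕ
  | 0, _ => v
  | k + 1, c => push (Nat.unpair c).1 (dec v k (Nat.unpair c).2)

theorem dec_pair (v : ℕ → ℕ) (k x c : ℕ) :
    dec v (k + 1) (Nat.pair x c) = push x (dec v k c) := by
  simp [dec]

theorem primrec_dec (v : ℕ → ℕ) : ∀ k i : ℕ, Nat.Primrec fun c => dec v k c i
  | 0, i => Nat.Primrec.const (v i)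
  | k + 1, i => by
    by_cases hi : i = 0
    · exact Nat.Primrec.left.of_eq fun c => by simp [dec, push, hi]
    · exact ((primrec_dec v k (i - 1)).comp Nat.Primrec.right).of_eq fun c => by
        simp [dec, push, hi]

variable (S : Set (Set ℕ))

theorem recF_val (v : ℕ → ℕ) (k : ℕ) (t : Tm) : RecF o fun c => t.val (omega S) (dec v k c) := by
  induction t with
  | var i => exact RecF.of_primrec (primrec_dec v k i)
  | zero => exact RecF.const 0
  | one => exact RecF.const 1
  | add s t hs ht => exact RecF.comp₂ Primrec.nat_add hs ht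
  | mul s t hs ht => exact RecF.comp₂ Primrec.nat_mul hs ht

/-- Truth of `Δ⁰₀` formulas is computable from one of an increasing sequence of oracles. -/
theorem recF_sat {oj : ℕ → ℕ →. ℕ} {X : ℕ → Set ℕ}
    (hX : ∀ i, ∃ l0, ∀ l, l0 ≤ l → RecF (oj l) fun n => if n ∈ X i then 1 else 0) (v : ℕ → ℕ)
    (φ : Bd) : ∃ l0, ∀ l, l0 ≤ l → ∀ k,
      RecF (oj l) fun c => if φ.Sat (omega S) X (dec v k c) then 1 else 0 := by
  induction φ with
  | eq s t =>
    refine ⟨0, fun l _ k => ?_⟩
    have h3 : Primrec₂ fun a b : ℕ => if a = b then 1 else 0 :=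
      Primrec.ite (Primrec.eq.comp Primrec.fst Primrec.snd) (Primrec.const 1) (Primrec.const 0)
    exact (RecF.comp₂ h3 (recF_val S v k s) (recF_val S v k t)).of_eq fun c =>
      if_congr Iff.rfl rfl rfl
  | lt s t =>
    refine ⟨0, fun l _ k => ?_⟩
    have h3 : Primrec₂ fun a b : ℕ => if a < b then 1 else 0 :=
      Primrec.ite (Primrec.nat_lt.comp Primrec.fst Primrec.snd) (Primrec.const 1)
        (Primrec.const 0)
    exact (RecF.comp₂ h3 (recF_val S v k s) (recF_val S v k t)).of_eq fun c =>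
      if_congr Iff.rfl rfl rfl
  | mem t i =>
    obtain ⟨l0, hl0⟩ := hX i
    exact ⟨l0, fun l hl k => (hl0 l hl).comp (recF_val S v k t)⟩
  | neg φ ih =>
    obtain ⟨l0, ih⟩ := ih
    refine ⟨l0, fun l hl k => ?_⟩
    refine (RecF.comp₂ (h := fun a _ => 1 - a) ?_ (ih l hl k) (ih l hl k)).of_eq fun c => ?_
    · exact Primrec.nat_sub.comp (Primrec.const 1) Primrec.fst
    · by_cases h : φ.Sat (omega S) X (dec v k c)
      · rw [if_pos h, if_neg (show ¬ (Bd.neg φ).Sat (omega S) X (dec v k c) from fun h2 => h2 h)]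
      · rw [if_neg h, if_pos (show (Bd.neg φ).Sat (omega S) X (dec v k c) from h)]
  | and φ ψ ih1 ih2 =>
    obtain ⟨l1, ih1⟩ := ih1
    obtain ⟨l2, ih2⟩ := ih2
    refine ⟨max l1 l2, fun l hl k => ?_⟩
    refine (RecF.comp₂ Primrec.nat_mul (ih1 l ((le_max_left _ _).trans hl) k)
      (ih2 l ((le_max_right _ _).trans hl) k)).of_eq fun c => ?_
    have h0 : (Bd.and φ ψ).Sat (omega S) X (dec v k c) ↔
        φ.Sat (omega S) X (dec v k c) ∧ ψ.Sat (omega S) X (dec v k c) := Iff.rfl
    by_cases h : φ.Sat (omega S) X (dec v k c) <;> by_cases h' : ψ.Sat (omega S) X (dec v k c) <;>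
      simp [h0, h, h']
  | all t φ ih =>
    obtain ⟨l0, ih⟩ := ih
    refine ⟨l0, fun l hl k => ?_⟩
    refine (RecF.ball (ih l hl (k + 1)) (recF_val S v k t)).of_eq fun c => if_congr ?_ rfl rfl
    have h0 : (Bd.all t φ).Sat (omega S) X (dec v k c) ↔ ∀ x : ℕ,
        x < t.val (omega S) (dec v k c) → φ.Sat (omega S) X (push x (dec v k c)) := Iff.rfl
    rw [h0]
    constructor
    · intro h x hx
      have h2 := h x hx
      rw [dec_pair] at h2
      exact by_contra fun h3 => absurd ((if_neg h3).symm.trans h2) (by norm_num)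
    · intro h x hx
      rw [dec_pair]
      exact if_pos (h x hx)

end Pool.Agent.NSI
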